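import Pool.Agent.Lib.MP_767f1c_pr.Orb

/-!
# MP_767f1c_pr: unimodular graphs, basic definitions

Labels: every vertex carries an infinite sequence of fair bits. A factor is a measurable
equivariant predicate.
-/

set_option autoImplicit false

namespace Pool.Agent.FIIDU

open MeasureTheory Set Filter
open scoped ENNReal

variable {V : Type}

/-! ### labels -/

/-- the space of labels -/
abbrev Om (V : Type) : Type := V × ℕ → Bool

/-- the fair coin -/
noncomputable def coin : Measure Bool :=
  (2 : ℝ≥0∞)⁻¹ • (Measure.dirac true + Measure.dirac false)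

instance coin_prob : IsProbabilityMeasure coin := by
  refine ⟨?_⟩
  unfold coin
  rw [Measure.smul_apply, Measure.add_apply, measure_univ, measure_univ, one_add_one_eq_two,
    smul_eq_mul, ENNReal.inv_mul_cancel two_ne_zero (by norm_num)]

/-- the law of the labels -/
noncomputable def PP (V : Type) : Measure (Om V) := Measure.infinitePi (fun _ : V × ℕ => coin)

instance PP_prob : IsProbabilityMeasure (PP V) := by
  unfold PP
  infer_instance

/-- the action of an automorphism on labels -/
def act {G : SimpleGraph V} (φ : G ≃g G) (ω : Om V) : Om V := fun p => ω (φ p.1, p.2)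

/-- the labels of the vertices are different -/
def Good (ω : Om V) : Prop := Function.Injective (fun (v : V) (i : ℕ) => ω (v, i))

/-! ### factors -/

/-- a factor: a random set of vertices -/
structure Fac1 (G : SimpleGraph V) (P : Om V → V → Prop) : Prop where
  meas : ∀ x, Measurable (fun ω => P ω x)
  equi : ∀ (φ : G ≃g G) (ω : Om V) (x : V), P (act φ ω) x ↔ P ω (φ x)

/-- a factor: a random relation -/
structure Fac2 (G : SimpleGraph V) (P : Om V → V → V → Prop) : Prop where
  meas : ∀ x y, Measurable (fun ω => P ω x y)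
  equi : ∀ (φ : G ≃g G) (ω : Om V) (x y : V), P (act φ ω) x y ↔ P ω (φ x) (φ y)

/-- finite objects are coded by lists of pairs of vertices -/
abbrev Obj (V : Type) : Type := List (V × V)

/-- the action on objects -/
def mapO {G : SimpleGraph V} (φ : G ≃g G) (l : Obj V) : Obj V := l.map (Prod.map φ φ)

/-- a factor: a random set of objects -/
structure FacO (G : SimpleGraph V) (P : Om V → Obj V → Prop) : Prop where
  meas : ∀ l, Measurable (fun ω => P ω l)
  equi : ∀ (φ : G ≃g G) (ω : Om V) (l : Obj V), P (act φ ω) l ↔ P ω (mapO φ l)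

/-- a factor: a random set of objects for every vertex -/
structure Fac1O (G : SimpleGraph V) (P : Om V → V → Obj V → Prop) : Prop where
  meas : ∀ x l, Measurable (fun ω => P ω x l)
  equi : ∀ (φ : G ≃g G) (ω : Om V) (x : V) (l : Obj V),
    P (act φ ω) x l ↔ P ω (φ x) (mapO φ l)

/-- the set of vertices of an object -/
def vs (l : Obj V) : Set V := {x | ∃ p ∈ l, x = p.1 ∨ x = p.2}

/-! ### graphs -/

/-- connected, transitive, `2d`-regular, unimodular -/
structure Std (G : SimpleGraph V) (d : ℕ) : Prop where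
  conn : G.Connected
  trans : ∀ x y : V, ∃ φ : G ≃g G, φ x = y
  fin : ∀ x, {y | G.Adj x y}.Finite
  deg : ∀ x, {y | G.Adj x y}.ncard = 2 * d
  uni : ∀ x y, (FIIDBO.orb G x y).ncard = (FIIDBO.orb G y x).ncard

/-- out-degree of a relation -/
noncomputable def dg (R : V → V → Prop) (x : V) : ℕ := {y | R x y}.ncard

/-- in-degree of a relation -/
noncomputable def dgi (R : V → V → Prop) (x : V) : ℕ := {y | R y x}.ncard

/-- the component of `x` -/
def comp (R : V → V → Prop) (x : V) : Set V := {y | Relation.ReflTransGen R x y}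

/-- the ball of radius `r` -/
def ball (G : SimpleGraph V) (x : V) (r : ℕ) : Set V := {y | G.dist x y ≤ r}

/-- `O` restricted to the edges at `x` is a balanced orientation of `R` at the vertex `x` -/
structure BalAt (R O : V → V → Prop) (x : V) : Prop where
  out : ∀ y, O x y → R x y
  inn : ∀ y, O y x → R y x
  one : ∀ y, R x y → (O x y ↔ ¬ O y x)
  bal : dg O x = dgi O x

/-- the graph with the edges of the relation `C` removed -/
def rem (G : SimpleGraph V) (C : V → V → Prop) (x y : V) : Prop := G.Adj x y ∧ ¬ C x y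

/-- `C` is a symmetric set of edges of `G` -/
def SubE (G : SimpleGraph V) (C : V → V → Prop) : Prop := ∀ x y, C x y → C y x ∧ G.Adj x y

/-- `G` has a factor-of-iid balanced orientation (for the labels `Om V`) -/
def HasBO [Countable V] (G : SimpleGraph V) : Prop :=
  ∃ O : Om V → V → V → Prop, Fac2 G O ∧ ∀ᵐ ω ∂PP V, ∀ x, BalAt G.Adj (O ω) x

/-- quasi-isometric to `ℤ` -/
def QI (G : SimpleGraph V) : Prop :=
  ∃ (f : V → ℤ) (A : ℕ), (∀ x y, |f x - f y| ≤ A * G.dist x y + A ∧
    (G.dist x y : ℤ) ≤ A * |f x - f y| + A) ∧ ∀ n : ℤ, ∃ x, |f x - n| ≤ A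

/-- the edge boundary of a set of vertices -/
def eb (G : SimpleGraph V) (F : Set V) : Set (V × V) := {p | p.1 ∈ F ∧ p.2 ∉ F ∧ G.Adj p.1 p.2}

/-- amenable -/
def Amen (G : SimpleGraph V) : Prop :=
  ∀ ε : ℝ, 0 < ε → ∃ F : Set V, F.Finite ∧ F.Nonempty ∧ ((eb G F).ncard : ℝ) ≤ ε * F.ncard

/-- superlinear growth -/
def SupLin (G : SimpleGraph V) : Prop :=
  ∀ (o : V) (c : ℕ), ∃ r, 1 ≤ r ∧ c * r ≤ (ball G o r).ncard

end Pool.Agent.FIIDU
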