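import Pool.Agent.Lib.MP_767f1c_pr.U.Transfer
import Pool.Agent.Lib.MP_767f1c_pr.Mg.G006
import Pool.Agent.Lib.MP_767f1c_pr.Mg.G002
import Pool.Agent.Lib.MP_767f1c_pr.Mg.G003

/-!
# MP_767f1c_pr: all unimodular transitive graphs of even degree not quasi-isometric to `ℤ`
-/

set_option autoImplicit false

namespace Pool.Agent.FIIDU

open MeasureTheory Set Filter
open scoped ENNReal

variable {V : Type}

/-- finite graphs -/
theorem bo_of_finite [Finite V] {G : SimpleGraph V} {d : ℕ} (h : Std G d) : HasBO G := by
  have heven : ∀ x, Even (dg G.Adj x) := by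
    intro x
    have := h.deg x
    unfold dg
    rw [this]
    exact even_two_mul d
  obtain ⟨O, hO, hb⟩ := sel_euler (G := G) (R := fun _ => G.Adj)
    ⟨fun x y => measurable_const, fun φ ω x y => (φ.map_adj_iff).symm⟩
    (fun ω x y hxy => ⟨hxy.symm, hxy⟩) (Eventually.of_forall fun ω x => heven x)
    (Eventually.of_forall fun ω x => Set.toFinite _)
  exact ⟨O, hO, hb⟩

/-- **Unimodular graphs.** -/
theorem bo_of_std [Countable V] {G : SimpleGraph V} {d : ℕ} (h : Std G d) (hqi : ¬ QI G) :
    HasBO G := by
  cases finite_or_infinite V with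
  | inl hf => exact bo_of_finite h
  | inr hi =>
    by_cases ham : Amen G
    · have hs : SupLin G := by
        by_contra hs
        exact hqi (qi_of_not_supLin ⟨h.conn, h.trans, h.fin, hi⟩ hs)
      exact bo_of_hypEv h (hypEv_of h ham hs)
    · obtain ⟨κ, hκ⟩ := exists_gap h ham
      exact bo_of_gap h hκ

/-- a balanced orientation has in- and outdegree `d` -/
theorem BalAt.deg {G : SimpleGraph V} {d : ℕ} (h : Std G d) {O : V → V → Prop} {x : V}
    (hb : BalAt G.Adj O x) : dg O x = d ∧ dgi O x = d := by
  have h1 : {y | G.Adj x y} = {y | O x y} ∪ {y | O y x} := by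
    ext y
    constructor
    · intro hy
      by_cases h' : O x y
      · exact Or.inl h'
      · right
        by_contra h''
        exact h' ((hb.one y hy).mpr h'')
    · rintro (hy | hy)
      · exact hb.out y hy
      · exact (hb.inn y hy).symm
  have hfin : {y | O x y} ∪ {y | O y x} ⊆ {y | G.Adj x y} := h1.symm.subset
  have h2 : Disjoint {y | O x y} {y | O y x} := by
    rw [Set.disjoint_left]
    intro y hy hy'
    exact (hb.one y (hb.out y hy)).mp hy hy'
  have h3 := Set.ncard_union_eq h2 ((h.fin x).subset (Set.subset_union_left.trans hfin))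
    ((h.fin x).subset (Set.subset_union_right.trans hfin))
  rw [← h1, h.deg x] at h3
  have h4 := hb.bal
  unfold dg dgi at *
  omega

end Pool.Agent.FIIDU
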