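import Pool.Agent.Lib.MP_767f1c_pr.U.Defs

/-!
# MP_767f1c_pr: binary digits
-/

set_option autoImplicit false

namespace Pool.Agent.FIIDU

open MeasureTheory Set Filter
open scoped ENNReal


variable {V : Type}

/-- the `i`-th binary digit -/
noncomputable def bit (i : ℕ) (x : ℝ) : Bool := decide ((1 : ℝ) / 2 ≤ Int.fract (2 ^ i * x))

theorem bit_meas (i : ℕ) : Measurable (bit i) := by
  apply measurable_to_bool
  have : bit i ⁻¹' {true} = {x | (1 : ℝ) / 2 ≤ Int.fract (2 ^ i * x)} := by
    ext x
    simp [bit]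
  rw [this]
  exact measurableSet_le measurable_const (measurable_fract.comp (measurable_const_mul _))

private theorem TrA_succ (i : ℕ) (x : ℝ) : bit (i + 1) x = bit i (Int.fract (2 * x)) := by
  unfold bit
  have h : (2 : ℝ) ^ i * Int.fract (2 * x) = 2 ^ (i + 1) * x - ((2 ^ i * ⌊2 * x⌋ : ℤ) : ℝ) := by
    rw [← Int.self_sub_floor]
    push_cast
    ring
  rw [h, Int.fract_sub_intCast]

private theorem TrA_false {B : Set ℝ} (hB : MeasurableSet B) :
    volume.restrict (Ico (0 : ℝ) 1) {x | bit 0 x = false ∧ Int.fract (2 * x) ∈ B} =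
      2⁻¹ * volume.restrict (Ico (0 : ℝ) 1) B := by
  have hms : MeasurableSet {x | bit 0 x = false ∧ Int.fract (2 * x) ∈ B} := by
    have h1 : MeasurableSet {x | bit 0 x = false} := (bit_meas 0) (measurableSet_singleton false)
    have h2 : MeasurableSet {x : ℝ | Int.fract (2 * x) ∈ B} :=
      (measurable_fract.comp (measurable_const_mul _)) hB
    exact h1.inter h2
  rw [Measure.restrict_apply hms, Measure.restrict_apply hB]
  have h1 : {x | bit 0 x = false ∧ Int.fract (2 * x) ∈ B} ∩ Ico (0 : ℝ) 1 =
      (fun x => 2 * x) ⁻¹' (B ∩ Ico 0 1) := by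
    ext x
    simp only [bit, pow_zero, one_mul, mem_inter_iff, Set.mem_ofPred_eq, mem_Ico, mem_preimage,
      decide_eq_false_iff_not, not_le]
    constructor
    · rintro ⟨⟨h1, h2⟩, h3, h4⟩
      have e : Int.fract x = x := Int.fract_eq_self.mpr ⟨h3, h4⟩
      rw [e] at h1
      have e2 : Int.fract (2 * x) = 2 * x := Int.fract_eq_self.mpr ⟨by linarith, by linarith⟩
      rw [e2] at h2
      exact ⟨h2, by linarith, by linarith⟩
    · rintro ⟨h2, h3, h4⟩
      have e : Int.fract x = x := Int.fract_eq_self.mpr ⟨by linarith, by linarith⟩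
      have e2 : Int.fract (2 * x) = 2 * x := Int.fract_eq_self.mpr ⟨by linarith, by linarith⟩
      rw [e, e2]
      exact ⟨⟨by linarith, h2⟩, by linarith, by linarith⟩
  rw [h1, Real.volume_preimage_mul_left two_ne_zero]
  congr 1
  rw [abs_of_pos (by norm_num), ENNReal.ofReal_inv_of_pos (by norm_num)]
  simp

private theorem TrA_true {B : Set ℝ} (hB : MeasurableSet B) :
    volume.restrict (Ico (0 : ℝ) 1) {x | bit 0 x = true ∧ Int.fract (2 * x) ∈ B} =
      2⁻¹ * volume.restrict (Ico (0 : ℝ) 1) B := by
  have hms : MeasurableSet {x | bit 0 x = true ∧ Int.fract (2 * x) ∈ B} := by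
    have h1 : MeasurableSet {x | bit 0 x = true} := (bit_meas 0) (measurableSet_singleton true)
    have h2 : MeasurableSet {x : ℝ | Int.fract (2 * x) ∈ B} :=
      (measurable_fract.comp (measurable_const_mul _)) hB
    exact h1.inter h2
  rw [Measure.restrict_apply hms, Measure.restrict_apply hB]
  have h1 : {x | bit 0 x = true ∧ Int.fract (2 * x) ∈ B} ∩ Ico (0 : ℝ) 1 =
      (fun x => 2 * x) ⁻¹' ((fun x => x + (-1)) ⁻¹' (B ∩ Ico 0 1)) := by
    ext x
    simp only [bit, pow_zero, one_mul, mem_inter_iff, Set.mem_ofPred_eq, mem_Ico, mem_preimage,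
      decide_eq_true_eq]
    have key : ∀ x : ℝ, 1 / 2 ≤ x → x < 1 → Int.fract (2 * x) = 2 * x + -1 := by
      intro x hx hx'
      rw [← Int.fract_sub_intCast (2 * x) 1]
      rw [Int.fract_eq_self.mpr ⟨by push_cast; linarith, by push_cast; linarith⟩]
      push_cast
      ring
    constructor
    · rintro ⟨⟨h1, h2⟩, h3, h4⟩
      have e : Int.fract x = x := Int.fract_eq_self.mpr ⟨h3, h4⟩
      rw [e] at h1
      rw [key x h1 h4] at h2
      exact ⟨h2, by linarith, by linarith⟩
    · rintro ⟨h2, h3, h4⟩
      have e : Int.fract x = x := Int.fract_eq_self.mpr ⟨by linarith, by linarith⟩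
      rw [e, key x (by linarith) (by linarith)]
      exact ⟨⟨by linarith, h2⟩, by linarith, by linarith⟩
  rw [h1, Real.volume_preimage_mul_left two_ne_zero, measure_preimage_add_right]
  congr 1
  rw [abs_of_pos (by norm_num), ENNReal.ofReal_inv_of_pos (by norm_num)]
  simp

open Classical in
private theorem TrA_coin (t : Set Bool) :
    coin t = (if false ∈ t then (2 : ℝ≥0∞)⁻¹ else 0) + (if true ∈ t then (2 : ℝ≥0∞)⁻¹ else 0) := by
  classical
  unfold coin
  rw [Measure.smul_apply, Measure.add_apply, Measure.dirac_apply, Measure.dirac_apply, smul_eq_mul,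
    mul_add, add_comm]
  congr 1 <;>
  · rw [Set.indicator_apply]
    split_ifs <;> simp

private theorem TrA_step (t : Set Bool) {B : Set ℝ} (hB : MeasurableSet B) :
    volume.restrict (Ico (0 : ℝ) 1) {x | bit 0 x ∈ t ∧ Int.fract (2 * x) ∈ B} =
      coin t * volume.restrict (Ico (0 : ℝ) 1) B := by
  classical
  have hms : ∀ b, MeasurableSet {x | bit 0 x = b ∧ Int.fract (2 * x) ∈ B} := by
    intro b
    have h1 : MeasurableSet {x | bit 0 x = b} := (bit_meas 0) (measurableSet_singleton b)
    have h2 : MeasurableSet {x : ℝ | Int.fract (2 * x) ∈ B} :=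
      (measurable_fract.comp (measurable_const_mul _)) hB
    exact h1.inter h2
  have hsplit : {x | bit 0 x ∈ t ∧ Int.fract (2 * x) ∈ B} =
      (if false ∈ t then {x | bit 0 x = false ∧ Int.fract (2 * x) ∈ B} else ∅) ∪
      (if true ∈ t then {x | bit 0 x = true ∧ Int.fract (2 * x) ∈ B} else ∅) := by
    ext x
    cases hx : bit 0 x <;> split_ifs <;> simp_all
  rw [hsplit, measure_union, TrA_coin, add_mul]
  · congr 1
    · split_ifs
      · exact TrA_false hB
      · simp
    · split_ifs
      · exact TrA_true hB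
      · simp
  · rw [Set.disjoint_left]
    intro x hx hx'
    split_ifs at hx hx'
    · exact absurd (hx.1.symm.trans hx'.1) (by simp)
    all_goals simp_all
  · split_ifs
    · exact hms true
    · exact MeasurableSet.empty

private theorem TrA_cyl (n : ℕ) : ∀ t : ℕ → Set Bool,
    volume.restrict (Ico (0 : ℝ) 1) {x | ∀ i < n, bit i x ∈ t i} = ∏ i ∈ Finset.range n, coin (t i) := by
  induction n with
  | zero =>
    intro t
    simp
  | succ n ih =>
    intro t
    have hms : MeasurableSet {y : ℝ | ∀ i < n, bit i y ∈ t (i + 1)} := by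
      have : {y : ℝ | ∀ i < n, bit i y ∈ t (i + 1)} = ⋂ i, ⋂ (_ : i < n), bit i ⁻¹' (t (i + 1)) := by
        ext y
        simp
      rw [this]
      exact MeasurableSet.iInter fun i => MeasurableSet.iInter fun _ =>
        (bit_meas i) (MeasurableSet.of_discrete)
    have h1 : {x : ℝ | ∀ i < n + 1, bit i x ∈ t i} =
        {x | bit 0 x ∈ t 0 ∧ Int.fract (2 * x) ∈ {y : ℝ | ∀ i < n, bit i y ∈ t (i + 1)}} := by
      ext x
      simp only [Set.mem_ofPred_eq]
      constructor
      · intro h
        refine ⟨h 0 (by omega), fun i hi => ?_⟩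
        rw [← TrA_succ]
        exact h (i + 1) (by omega)
      · rintro ⟨h0, h⟩ i hi
        rcases i with _ | i
        · exact h0
        · rw [TrA_succ]
          exact h i (by omega)
    rw [h1, TrA_step _ hms, ih, Finset.prod_range_succ', mul_comm]

/-- the binary digits of a uniform point are fair coins -/
theorem bits_mp : MeasurePreserving (fun (x : unitInterval) (i : ℕ) => bit i (x : ℝ))
    (volume : Measure unitInterval) (Measure.infinitePi (fun _ : ℕ => coin)) := by
  classical
  have hm : Measurable (fun (x : ℝ) (i : ℕ) => bit i x) := measurable_pi_lambda _ (fun i => bit_meas i)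
  have h1 : MeasurePreserving (fun (x : ℝ) (i : ℕ) => bit i x) (volume.restrict (Ico (0 : ℝ) 1))
      (Measure.infinitePi (fun _ : ℕ => coin)) := by
    refine ⟨hm, ?_⟩
    apply Measure.eq_infinitePi
    intro s t ht
    have hcyl : MeasurableSet ((s : Set ℕ).pi t) := MeasurableSet.pi s.countable_toSet (fun i _ => ht i)
    rw [Measure.map_apply hm hcyl]
    obtain ⟨n, hn⟩ : ∃ n, s ⊆ Finset.range n := ⟨s.sup id + 1, fun i hi =>
      Finset.mem_range.mpr (Nat.lt_succ_of_le (Finset.le_sup (f := id) hi))⟩
    have h2 : (fun (x : ℝ) (i : ℕ) => bit i x) ⁻¹' ((s : Set ℕ).pi t) =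
        {x | ∀ i < n, bit i x ∈ (if i ∈ s then t i else univ)} := by
      ext x
      simp only [mem_preimage, Set.mem_pi, Finset.mem_coe, Set.mem_ofPred_eq]
      constructor
      · intro h i hi
        split_ifs with his
        · exact h i his
        · exact mem_univ _
      · intro h i hi
        have := h i (Finset.mem_range.mp (hn hi))
        rwa [if_pos hi] at this
    rw [h2, TrA_cyl]
    rw [← Finset.prod_subset hn]
    · apply Finset.prod_congr rfl
      intro i hi
      rw [if_pos hi]
    · intro i _ hi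
      rw [if_neg hi, measure_univ]
  have h2 : (volume.restrict (Ico (0 : ℝ) 1)) = volume.restrict (Icc (0 : ℝ) 1) :=
    Measure.restrict_congr_set Ico_ae_eq_Icc
  rw [h2] at h1
  exact h1.comp (measurePreserving_subtype_coe measurableSet_Icc)

end Pool.Agent.FIIDU
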