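import Pool.Agent.Lib.MP_767f1c_pr.U.TrA

/-!
# MP_767f1c_pr: from bits to uniform labels
-/

set_option autoImplicit false

namespace Pool.Agent.FIIDU

open MeasureTheory Set Filter
open scoped ENNReal


variable {V : Type}

/-- the map from labels in `[0,1]` to bits -/
noncomputable def toBits (ω : V → unitInterval) : Om V := fun p => bit p.2 (ω p.1 : ℝ)

theorem toBits_mp [Countable V] : MeasurePreserving (toBits (V := V))
    (Measure.infinitePi (fun _ : V => (volume : Measure unitInterval))) (PP V) := by
  have hb := bits_mp
  have h1 := Measure.infinitePi_map_pi (μ := fun _ : V => (volume : Measure unitInterval))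
    (f := fun (_ : V) (x : unitInterval) (i : ℕ) => bit i (x : ℝ)) (fun _ => hb.measurable)
  have h2 := Measure.infinitePi_map_curry_symm (ι := V) (κ := ℕ) (X := Bool) (fun _ _ => coin)
  have hm : Measurable (fun (x : V → unitInterval) (v : V) (i : ℕ) => bit i (x v : ℝ)) := by
    apply measurable_pi_lambda
    intro v
    exact hb.measurable.comp (measurable_pi_apply v)
  have e : toBits (V := V) = (MeasurableEquiv.curry V ℕ Bool).symm ∘
      (fun (x : V → unitInterval) (v : V) (i : ℕ) => bit i (x v : ℝ)) := by
    ext ω p
    rfl
  refine ⟨?_, ?_⟩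
  · rw [e]
    exact (MeasurableEquiv.curry V ℕ Bool).symm.measurable.comp hm
  · rw [e, ← Measure.map_map (MeasurableEquiv.curry V ℕ Bool).symm.measurable hm]
    unfold PP
    rw [← h2]
    congr 1
    refine h1.trans ?_
    congr 1
    funext v
    exact hb.map_eq

end Pool.Agent.FIIDU
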